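import Pool.Agent.Helper20_TWS.Stmts
import Pool.Agent.Helper58_TOR.Elim

/-! M2S of table tws -/

set_option autoImplicit false

namespace Pool.Agent.TWS.H58

open Pool.Agent.TOR Pool.Agent.TOR.H58 Pool.Agent.TWS Finsupp

theorem ex_of {M V : Type} [AddCommGroup M] {K : Set V → Prop} {r p : ℕ} (h : AcT M r K)
    (hp : p < r) : Ex M K p := by
  rintro c ⟨hc, h0⟩
  have h0' : bd c = 0 := h0
  obtain ⟨b, hb, hbc⟩ := h c (Sup_mono (fun l hl => ⟨hl.1, by rw [hl.2]; exact hp⟩) hc) h0'
  obtain ⟨d, h1, h2⟩ := filter_mem hb (fun l => l.length = p + 1)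
  refine ⟨d, h1, ?_⟩
  have h3 : bd (b - d) ∈ Sup M (fun l : List V => l.length ≠ p) := by
    refine bd_mem_Sup ?_ h2
    intro l hl l' _ h
    have := hl.2
    omega
  have h4 : bd d ∈ Sup M (fun l : List V => l.length = p) := by
    refine bd_mem_Sup ?_ h1
    intro l hl l' _ h
    have := hl.2
    omega
  have h5 : bd (b - d) ∈ Sup M (fun l : List V => l.length = p) := by
    rw [map_sub, hbc]
    exact AddSubgroup.sub_mem _ (Sup_mono (fun _ h => h.2) hc) h4
  have h6 := eq_zero_of_disj h3 h5 (fun l h h' => h h')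
  rw [map_sub, hbc, sub_eq_zero] at h6
  exact h6.symm

theorem core_iff {V k E : Type} [Field k] [AddCommGroup E] [Module k E] (cls : V → E)
    (N : Submodule k E) (s : Set V) :
    LinearIndepOn k (fun v => N.mkQ (cls v)) s ↔ core cls N s = ∅ := by
  rw [linearIndepOn_iff_notMem_span]
  have key : ∀ v, ∀ X : Set V, N.mkQ (cls v) ∈ Submodule.span k ((fun v => N.mkQ (cls v)) '' X) ↔
      cls v ∈ N ⊔ Submodule.span k (cls '' X) := by
    intro v X
    have h1 : (fun v => N.mkQ (cls v)) '' X = N.mkQ '' (cls '' X) := by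
      rw [Set.image_image]
    rw [h1, ← Submodule.map_span, ← Submodule.mem_comap, Submodule.comap_map_eq,
      Submodule.ker_mkQ, sup_comm]
  constructor
  · intro h
    refine Set.eq_empty_iff_forall_notMem.mpr ?_
    rintro v ⟨hv, hvc⟩
    exact h v hv ((key v _).mpr hvc)
  · intro h v hv hvc
    have : v ∈ core cls N s := ⟨hv, (key v _).mp hvc⟩
    rw [h] at this
    exact this

theorem m2s : M2S := by
  classical
  intro V E M _ _ _ g S κ i L hκ hκS hfull N p hp
  have hfd : FiniteDimensional ℚ E := S.fd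
  set cmp : V → V → Prop := fun v w => S.C (i, v) (i, w) ∧ (∀ q ∈ κ, S.C q (i, v)) ∧
    ∀ q ∈ κ, S.C q (i, w) with hcmp
  have hsym : ∀ v w, cmp v w → cmp w v := fun v w h => ⟨S.symm _ _ h.1, h.2.2, h.2.1⟩
  have hmem : ∀ (s : Set V) (q : ℕ × V), q ∈ gp i s ↔ ∃ v ∈ s, (i, v) = q := fun s q => Iff.rfl
  -- translation of the systems
  have hsys : ∀ s : Set V, (∀ v ∈ s, ∀ w ∈ s, cmp v w) ↔ S.Sys (κ ∪ gp i s) := by
    intro s
    constructor
    · intro h q hq q' hq'
      rcases hq with hq | ⟨v, hv, rfl⟩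
      · rcases hq' with hq' | ⟨w, hw, rfl⟩
        · exact hκS q hq q' hq'
        · exact (h w hw w hw).2.1 q hq
      · rcases hq' with hq' | ⟨w, hw, rfl⟩
        · exact S.symm _ _ ((h v hv v hv).2.1 q' hq')
        · exact (h v hv w hw).1
    · intro h v hv w hw
      exact ⟨h _ (Or.inr ⟨v, hv, rfl⟩) _ (Or.inr ⟨w, hw, rfl⟩),
        fun q hq => h q (Or.inl hq) _ (Or.inr ⟨v, hv, rfl⟩),
        fun q hq => h q (Or.inl hq) _ (Or.inr ⟨w, hw, rfl⟩)⟩
  have hgpu : ∀ s t : Set V, gp i (s ∪ t) = gp i s ∪ gp i t := fun s t => Set.image_union _ _ _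
  have hflow : ∀ (γ : Finset V) (N' : Submodule ℚ E), (∀ v ∈ γ, ∀ w ∈ γ, cmp v w) →
      (∃ v, cmp v v ∧ (∀ w ∈ γ, cmp v w) ∧ S.cl v ∉ N') →
      Acyc M (KM cmp S.cl (γ : Set V) N') := by
    intro γ N' hγ hv
    have hγS : S.Sys (κ ∪ gp i (γ : Set V)) := (hsys _).mp hγ
    have h1 := S.flow M (κ ∪ gp i (γ : Set V)) (hκ.union (γ.finite_toSet.image _)) hγS i N' (by
      obtain ⟨v, h1, h2, h3⟩ := hv
      refine ⟨v, ?_, h3⟩
      have h4 : S.Sys (κ ∪ gp i (insert v (γ : Set V))) := by
        refine (hsys _).mp ?_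
        intro a ha b hb
        rcases ha with rfl | ha
        · rcases hb with rfl | hb
          · exact h1
          · exact h2 b hb
        · rcases hb with rfl | hb
          · exact hsym _ _ (h2 a ha)
          · exact hγ a ha b hb
      have h5 : insert (i, v) (κ ∪ gp i (γ : Set V)) = κ ∪ gp i (insert v (γ : Set V)) := by
        unfold gp
        rw [Set.image_insert_eq, Set.union_insert]
      rw [h5]
      exact h4)
    have h2 : (fun s : Set V => (∀ p ∈ κ ∪ gp i (γ : Set V) ∪ gp i s,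
        ∀ q ∈ κ ∪ gp i (γ : Set V) ∪ gp i s, S.C p q) ∧ ∀ v ∈ s, S.cl v ∉ N') =
        KM cmp S.cl (γ : Set V) N' := by
      funext s
      refine propext ?_
      have h3 : κ ∪ gp i (γ : Set V) ∪ gp i s = κ ∪ gp i ((γ : Set V) ∪ s) := by
        rw [hgpu, Set.union_assoc]
      rw [h3]
      have h4 := hsys ((γ : Set V) ∪ s)
      unfold ASys.Sys at h4
      rw [← h4]
      constructor
      · rintro ⟨h5, h6⟩
        exact ⟨fun v hv w hw => h5 v (Or.inr hv) w (Or.inr hw),
          fun v hv w hw => h5 v (Or.inr hv) w (Or.inl hw), h6⟩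
      · rintro ⟨h5, h6, h7⟩
        refine ⟨?_, h7⟩
        rintro v (hv | hv) w (hw | hw)
        · exact hγ v hv w hw
        · exact hsym _ _ (h6 w hw v hv)
        · exact h6 v hv w hw
        · exact h5 v hv w hw
    rw [← h2]
    exact h1
  have hm := m2 (M := M) cmp hsym S.cl hflow (Module.finrank ℚ (L.map N.mkQ)) ∅ N (by simp) (by
    intro γ' _ hγ' T hT
    have hL : ¬ L ≤ N ⊔ Submodule.span ℚ (T : Set E) := by
      intro hle
      have h1 : L.map N.mkQ ≤ Submodule.span ℚ ((T.image N.mkQ : Finset (E ⧸ N)) : Set (E ⧸ N)) := by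
        refine (Submodule.map_mono hle).trans ?_
        rw [Submodule.map_sup, Submodule.map_span, Finset.coe_image]
        refine sup_le ?_ le_rfl
        rw [Submodule.map_le_iff_le_comap]
        intro x hx
        rw [Submodule.mem_comap]
        have : N.mkQ x = 0 := (Submodule.Quotient.mk_eq_zero N).mpr hx
        rw [this]
        exact Submodule.zero_mem _
      have h2 := Submodule.finrank_mono h1
      have h3 := finrank_span_finset_le_card (R := ℚ) (T.image N.mkQ)
      have h4 := Finset.card_image_le (s := T) (f := N.mkQ)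
      unfold Set.finrank at h3
      omega
    obtain ⟨v, hv, hvN⟩ := hfull (γ' : Set V) γ'.finite_toSet ((hsys _).mp hγ') _ hL
    have h5 : insert (i, v) (κ ∪ gp i (γ' : Set V)) = κ ∪ gp i (insert v (γ' : Set V)) := by
      unfold gp
      rw [Set.image_insert_eq, Set.union_insert]
    rw [h5, ← hsys] at hv
    exact ⟨v, hv v (Or.inl rfl) v (Or.inl rfl), fun w hw => hv v (Or.inl rfl) w (Or.inr hw), hvN⟩)
  have hex := ex_of (p := p) hm (by omega)
  have h2 : IM cmp S.cl ((∅ : Finset V) : Set V) N = S.II κ i N := by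
    funext s
    refine propext ?_
    unfold IM ASys.II ASys.Ind
    rw [core_iff, hsys]
    simp
  rw [← h2]
  exact hex

end Pool.Agent.TWS.H58
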